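import Pool.Agent.H.MP_c3d4b2_gt.Gen

namespace Pool.Agent.H.MP_f5d73e_gt

open Matrix MeasureTheory Pool.Agent.H.MP_44343f_gt Pool.Agent.H.MP_c3d4b2_gt

noncomputable def N0 (q : ℝ) : ℝ := 1 + (1 + q)⁻¹
noncomputable def N1 (q : ℝ) : ℝ := -((1 + q)⁻¹) ^ 2
noncomputable def N2 (q : ℝ) : ℝ := 2 * ((1 + q)⁻¹) ^ 3

lemma dot_nonneg {n : ℕ} (x : V n) : 0 ≤ x ⬝ᵥ x :=
  Finset.sum_nonneg fun _ _ => mul_self_nonneg _

lemma hd_q {n : ℕ} (x w : V n) :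
    HasDerivAt (fun t : ℝ => (x + t • w) ⬝ᵥ (x + t • w)) (2 * (x ⬝ᵥ w)) 0 := by
  have : HasDerivAt (fun t : ℝ => ∑ i, (x + t • w) i * (x + t • w) i)
      (∑ i, (w i * (x + (0 : ℝ) • w) i + (x + (0 : ℝ) • w) i * w i)) 0 :=
    HasDerivAt.fun_sum fun i _ => (hd_coord x w i).mul (hd_coord x w i)
  refine this.congr_deriv ?_
  simp only [zero_smul, add_zero, dotProduct, Finset.mul_sum]
  exact Finset.sum_congr rfl fun _ _ => by ring

lemma hd_a {n : ℕ} (x w u : V n) : HasDerivAt (fun t : ℝ => (x + t • w) ⬝ᵥ u) (w ⬝ᵥ u) 0 := by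
  simp only [add_dotProduct, smul_dotProduct, smul_eq_mul]
  simpa using ((hasDerivAt_id (0 : ℝ)).mul_const (w ⬝ᵥ u)).const_add (x ⬝ᵥ u)

lemma hd_comp {n : ℕ} {f : ℝ → ℝ} {f' : ℝ} (x w : V n) (hf : HasDerivAt f f' (x ⬝ᵥ x)) :
    HasDerivAt (fun t : ℝ => f ((x + t • w) ⬝ᵥ (x + t • w))) (f' * (2 * (x ⬝ᵥ w))) 0 := by
  refine HasDerivAt.comp (0 : ℝ) (h₂ := f) ?_ (hd_q x w)
  simpa using hf

lemma hd_i {q : ℝ} (hq : 0 ≤ q) : HasDerivAt (fun q : ℝ => (1 + q)⁻¹) (-((1 + q)⁻¹) ^ 2) q := by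
  have := ((hasDerivAt_id q).const_add 1).inv (by simp only [id]; positivity)
  refine HasDerivAt.congr_deriv this ?_
  simp only [id]; field_simp

lemma hd_N0 {q : ℝ} (hq : 0 ≤ q) : HasDerivAt N0 (N1 q) q := (hd_i hq).const_add 1

lemma hd_N1 {q : ℝ} (hq : 0 ≤ q) : HasDerivAt N1 (N2 q) q := by
  refine HasDerivAt.congr_deriv ((hd_i hq).pow 2).neg ?_
  simp only [N2]
  generalize (1 + q)⁻¹ = a
  norm_num; ring

lemma N0_ge {q : ℝ} (hq : 0 ≤ q) : 1 ≤ N0 q := by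
  have : 0 ≤ (1 + q)⁻¹ := by positivity
  unfold N0; linarith

def bb (i : Fin 5) : ℝ := if i = 0 then 1 else 0

noncomputable def gg : Met 5 := fun x =>
  Matrix.diagonal fun i => if i = 0 then N0 (x ⬝ᵥ x) ^ 2 else 1

lemma ip_gg (x u v : V 5) : ip (gg x) u v = u ⬝ᵥ v + (N0 (x ⬝ᵥ x) ^ 2 - 1) * (u 0 * v 0) := by
  simp [ip, gg, dotProduct, Matrix.mulVec_diagonal, Fin.sum_univ_five]; ring

lemma gg_inv (x : V 5) :
    (gg x)⁻¹ = Matrix.diagonal fun i => if i = 0 then (N0 (x ⬝ᵥ x) ^ 2)⁻¹ else 1 := by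
  apply Matrix.inv_eq_left_inv
  have := N0_ge (dot_nonneg x)
  rw [gg, Matrix.diagonal_mul_diagonal, ← Matrix.diagonal_one]
  congr 1; funext i
  split_ifs
  · field_simp
  · simp

noncomputable def dg (z w u v : V 5) : ℝ :=
  4 * N0 (z ⬝ᵥ z) * N1 (z ⬝ᵥ z) * (z ⬝ᵥ w) * (u 0 * v 0)

lemma jet : Jet gg dg := by
  constructor
  · intro z
    have := N0_ge (dot_nonneg z)
    rw [gg, Matrix.det_diagonal, isUnit_iff_ne_zero]
    simp [Fin.prod_univ_five]; linarith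
  · intro z u v; rw [ip_gg, ip_gg, dotProduct_comm u v]; ring
  · intro z w u v
    simp only [ip_gg]
    have h := hd_comp z w (hd_N0 (dot_nonneg z))
    refine HasDerivAt.congr_deriv ((((h.pow 2).sub_const 1).mul_const _).const_add _) ?_
    simp only [dg, zero_smul, add_zero]; norm_num; left; ring
  · intro z u v
    constructor
    · intro a b; simp only [dg, dotProduct_add]; ring
    · intro a b; simp only [dg, dotProduct_smul, smul_eq_mul]; ring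
  · intro z w i j
    simp only [gg_inv, Matrix.diagonal_apply]
    have h := hd_comp z w (hd_N0 (dot_nonneg z))
    have := N0_ge (dot_nonneg z)
    split_ifs
    · exact ((h.pow 2).inv (by simp; linarith)).differentiableAt
    · exact differentiableAt_const _
    · exact differentiableAt_const _

lemma Lam_eq (z u v w : V 5) : Lam dg z u v w = 2 * N0 (z ⬝ᵥ z) * N1 (z ⬝ᵥ z) *
    (z ⬝ᵥ u * (v 0 * w 0) + z ⬝ᵥ v * (u 0 * w 0) - z ⬝ᵥ w * (u 0 * v 0)) := by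
  simp only [Lam, dg]; ring

noncomputable def ddL (z X u v w : V 5) : ℝ :=
  4 * (N1 (z ⬝ᵥ z) ^ 2 + N0 (z ⬝ᵥ z) * N2 (z ⬝ᵥ z)) * (z ⬝ᵥ X) *
    (z ⬝ᵥ u * (v 0 * w 0) + z ⬝ᵥ v * (u 0 * w 0) - z ⬝ᵥ w * (u 0 * v 0))
  + 2 * N0 (z ⬝ᵥ z) * N1 (z ⬝ᵥ z) *
    (X ⬝ᵥ u * (v 0 * w 0) + X ⬝ᵥ v * (u 0 * w 0) - X ⬝ᵥ w * (u 0 * v 0))

lemma hd_Lam (z X u v w : V 5) :
    HasDerivAt (fun t : ℝ => Lam dg (z + t • X) u v w) (ddL z X u v w) 0 := by
  simp only [Lam_eq]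
  have h0 := hd_comp z X (hd_N0 (dot_nonneg z))
  have h1 := hd_comp z X (hd_N1 (dot_nonneg z))
  refine HasDerivAt.congr_deriv (((h0.const_mul 2).mul h1).mul
    ((((hd_a z X u).mul_const _).add ((hd_a z X v).mul_const _)).sub
      ((hd_a z X w).mul_const _))) ?_
  simp only [ddL, zero_smul, add_zero, Pi.mul_apply, Pi.add_apply, Pi.sub_apply]; ring

noncomputable def dh (i j : Fin 5) : ℝ := (if i = j then 1 else 0) - bb i * bb j

noncomputable def Hh (x : V 5) (i j : Fin 5) : ℝ :=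
  4 * N0 (x ⬝ᵥ x) * N2 (x ⬝ᵥ x) * ((x i - x 0 * bb i) * (x j - x 0 * bb j))
    + 2 * N0 (x ⬝ᵥ x) * N1 (x ⬝ᵥ x) * dh i j

lemma bv_zero (i : Fin 5) : bv i 0 = bb i := by
  simp [bv, bb, Pi.single_apply, eq_comm]

lemma dot_bv {n : ℕ} (x : V n) (i : Fin n) : x ⬝ᵥ bv i = x i := by simp [bv]

lemma bv_bv (i j : Fin 5) : bv i j = dh i j + bb i * bb j := by
  simp [bv, dh, Pi.single_apply, eq_comm]

lemma dh_symm (i j : Fin 5) : dh i j = dh j i := by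
  simp only [dh, eq_comm, mul_comm]

lemma quad (x a b : V 5) : a ⬝ᵥ (gg x)⁻¹ *ᵥ b =
    a ⬝ᵥ b + ((N0 (x ⬝ᵥ x) ^ 2)⁻¹ - 1) * (a 0 * b 0) := by
  simp [gg_inv, dotProduct, Matrix.mulVec_diagonal, Fin.sum_univ_five]; ring

lemma Lam_vec (z u v : V 5) : (fun l => Lam dg z u v (bv l)) =
    (2 * N0 (z ⬝ᵥ z) * N1 (z ⬝ᵥ z)) • ((z ⬝ᵥ u * v 0 + z ⬝ᵥ v * u 0) • bv 0 - (u 0 * v 0) • z) := by
  funext l
  simp only [Lam_eq, dot_bv, bv_zero, Pi.smul_apply, Pi.sub_apply, smul_eq_mul]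
  have : bv 0 l = bb l := by simp [bv, bb, Pi.single_apply]
  rw [this]; ring

lemma Rm_eq (x : V 5) (i j k l : Fin 5) : Rm gg x i j k l =
    -(bb i * bb k * Hh x j l + bb j * bb l * Hh x i k - bb i * bb l * Hh x j k
      - bb j * bb k * Hh x i l) := by
  have hN := N0_ge (dot_nonneg x)
  have h00 : bb 0 = 1 := by simp [bb]
  rw [Rm, jet.ip_curv hd_Lam]
  simp only [Lam_vec, quad, ddL, smul_dotProduct, dotProduct_smul, sub_dotProduct, dotProduct_sub,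
    dot_bv, bv_zero, Pi.smul_apply, Pi.sub_apply, smul_eq_mul, dotProduct_comm (bv 0) x,
    h00, Hh]
  simp only [bv_bv, dh_symm j i]
  generalize N0 (x ⬝ᵥ x) = a at hN ⊢
  field_simp
  ring

end Pool.Agent.H.MP_f5d73e_gt
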