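import Pool.Agent.H.MP_f5d73e_gt.Curv

namespace Pool.Agent.H.MP_f5d73e_gt

open Matrix MeasureTheory Pool.Agent.H.MP_44343f_gt Pool.Agent.H.MP_c3d4b2_gt

noncomputable def tr (x : V 5) : ℝ := Hh x 1 1 + Hh x 2 2 + Hh x 3 3 + Hh x 4 4

lemma Hh0l (x : V 5) (j : Fin 5) : Hh x 0 j = 0 := by
  by_cases h : j = 0
  · subst h; simp [Hh, dh, bb]
  · simp [Hh, dh, bb, h, Ne.symm h]

lemma Hh0r (x : V 5) (j : Fin 5) : Hh x j 0 = 0 := by
  by_cases h : j = 0
  · subst h; simp [Hh, dh, bb]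
  · simp [Hh, dh, bb, h]

lemma dh0l (j : Fin 5) : dh 0 j = 0 := by
  by_cases h : j = 0
  · subst h; simp [dh, bb]
  · simp [dh, bb, h, Ne.symm h]

lemma dh0r (j : Fin 5) : dh j 0 = 0 := by rw [dh_symm, dh0l]

lemma Ric_eq (x : V 5) (j l : Fin 5) :
    Ric gg x j l = -(tr x * (bb j * bb l) + (N0 (x ⬝ᵥ x) ^ 2)⁻¹ * Hh x j l) := by
  simp only [Ric, gg_inv, Matrix.diagonal_apply, ite_mul, zero_mul, Finset.sum_ite_eq,
    Finset.mem_univ, if_true, Rm_eq, Fin.sum_univ_five, Hh0l, Hh0r, tr]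
  simp [bb]
  split_ifs <;> simp_all [Hh0l, Hh0r] <;> ring

lemma Scal_eq (x : V 5) : Scal gg x = -2 * (N0 (x ⬝ᵥ x) ^ 2)⁻¹ * tr x := by
  simp only [Scal, gg_inv, Matrix.diagonal_apply, ite_mul, zero_mul, Finset.sum_ite_eq,
    Finset.mem_univ, if_true, Ric_eq, Fin.sum_univ_five, Hh0l, Hh0r]
  simp [bb, tr]; ring

lemma gg_apply (x : V 5) (i j : Fin 5) : gg x i j = dh i j + N0 (x ⬝ᵥ x) ^ 2 * (bb i * bb j) := by
  simp only [gg, Matrix.diagonal_apply, dh, bb]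
  split_ifs <;> simp_all

lemma Plow_eq (x : V 5) (i j k l : Fin 5) : Plow gg x i j k l = (N0 (x ⬝ᵥ x) ^ 2)⁻¹ *
    (-Hh x j k * dh i l + Hh x j l * dh i k + Hh x i k * dh j l - Hh x i l * dh j k
      - tr x * (dh i k * dh j l - dh i l * dh j k)) := by
  have hN := N0_ge (dot_nonneg x)
  simp only [Plow, Rm_eq, Ric_eq, Scal_eq, gg_apply]
  generalize N0 (x ⬝ᵥ x) = a at hN ⊢
  field_simp
  ring

lemma Pup_eq (x : V 5) (i j k l : Fin 5) : Pup gg x i j k l =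
    (gg x)⁻¹ i i * (gg x)⁻¹ j j * (gg x)⁻¹ k k * (gg x)⁻¹ l l * Plow gg x i j k l := by
  simp [Pup, gg_inv, Matrix.diagonal_apply]

lemma L2_eq (x : V 5) : L2 gg x = 0 := by
  refine Finset.sum_eq_zero fun i _ => Finset.sum_eq_zero fun j _ =>
    Finset.sum_eq_zero fun k _ => Finset.sum_eq_zero fun l _ => ?_
  rw [Pup_eq, mul_assoc, Plow_eq, Rm_eq]
  refine mul_eq_zero_of_right _ ?_
  by_cases hi : i = 0
  · simp [hi, Hh0l, dh0l]
  · by_cases hj : j = 0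
    · simp [hj, Hh0l, dh0l]
    · simp [bb, hi, hj]

lemma flux_eq (r : ℝ) : flux gg r = 0 := by
  unfold flux
  refine mul_eq_zero_of_right _ (integral_eq_zero_of_ae (Filter.Eventually.of_forall fun θ => ?_))
  refine Finset.sum_eq_zero fun i _ => Finset.sum_eq_zero fun j _ =>
    Finset.sum_eq_zero fun k _ => Finset.sum_eq_zero fun l _ => ?_
  rw [Pup_eq, Plow_eq, jet.ld_entry, dg, bv_zero, bv_zero]
  by_cases hj : j = 0
  · simp [hj, Hh0l, dh0l]
  · simp [bb, hj]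

lemma Scal_pos (x : V 5) : 0 < Scal gg x := by
  have hN := N0_ge (dot_nonneg x)
  have hq := dot_nonneg x
  have e : x ⬝ᵥ x = x 0 ^ 2 + (x 1 ^ 2 + x 2 ^ 2 + x 3 ^ 2 + x 4 ^ 2) := by
    simp [dotProduct, Fin.sum_univ_five]; ring
  have : tr x = -8 * N0 (x ⬝ᵥ x) * ((1 + x ⬝ᵥ x)⁻¹) ^ 3 * (1 + x 0 ^ 2) := by
    simp [tr, Hh, dh, bb, N1, N2]
    generalize N0 (x ⬝ᵥ x) = a
    field_simp
    rw [e]; ring
  rw [Scal_eq, this]
  have : 0 < (N0 (x ⬝ᵥ x) ^ 2)⁻¹ * (N0 (x ⬝ᵥ x) * ((1 + x ⬝ᵥ x)⁻¹) ^ 3 * (1 + x 0 ^ 2)) := by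
    positivity
  linarith

lemma metric : IsMetric gg := by
  constructor
  · intro i j
    simp only [gg_apply, N0, dotProduct]
    refine contDiff_const.add (ContDiff.mul (ContDiff.pow (contDiff_const.add
      (ContDiff.inv (by fun_prop) fun x => ?_)) 2) contDiff_const)
    have := dot_nonneg x
    unfold dotProduct at this
    positivity
  · intro x
    have hN := N0_ge (dot_nonneg x)
    apply Matrix.PosDef.diagonal
    intro i
    split_ifs <;> positivity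

lemma sq_le_dot {n : ℕ} (v : V n) (i : Fin n) : v i ^ 2 ≤ v ⬝ᵥ v := by
  rw [sq]
  exact Finset.single_le_sum (f := fun j => v j * v j) (fun _ _ => mul_self_nonneg _)
    (Finset.mem_univ i)

lemma complete : Complete gg := by
  refine complete_of_ge gg (fun i j => (metric.1 i j).continuous) fun x v => ?_
  apply norm_le_of_sq
  intro i
  have hN := N0_ge (dot_nonneg x)
  have h1 : 0 ≤ (N0 (x ⬝ᵥ x) ^ 2 - 1) * (v 0 * v 0) :=
    mul_nonneg (by nlinarith) (mul_self_nonneg _)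
  rw [ip_gg]
  linarith [sq_le_dot v i, dot_nonneg v]

lemma abs_le_r {n : ℕ} (x : V n) (i : Fin n) : |x i| ≤ √(x ⬝ᵥ x) :=
  Real.abs_le_sqrt (sq_le_dot x i)

lemma rp {r : ℝ} (hr : 0 < r) (k : ℕ) : r ^ (-(k : ℝ)) = r⁻¹ ^ k := by
  rw [Real.rpow_neg hr.le, Real.rpow_natCast, inv_pow]

lemma af : AF gg 2 := by
  refine ⟨100, 1, fun x hx i j k l => ?_⟩
  have hq := dot_nonneg x
  obtain ⟨r, hr⟩ : ∃ r, r = √(x ⬝ᵥ x) := ⟨_, rfl⟩
  have hrq : x ⬝ᵥ x = r ^ 2 := by rw [hr, Real.sq_sqrt hq]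
  have hk := abs_le_r x k
  have hl := abs_le_r x l
  rw [← hr] at hx hk hl ⊢
  have hr0 : 0 < r := by linarith
  obtain ⟨w, hw⟩ : ∃ w, w = r⁻¹ := ⟨_, rfl⟩
  have hw0 : 0 < w := by rw [hw]; positivity
  have hwr : w * r = 1 := by rw [hw]; field_simp
  have hw1 : w ≤ 1 := by nlinarith
  obtain ⟨a, ha⟩ : ∃ a, a = (1 + x ⬝ᵥ x)⁻¹ := ⟨_, rfl⟩
  have ha0 : 0 < a := by rw [ha]; positivity
  have haw : a ≤ w ^ 2 := by
    rw [ha, hw, hrq, inv_pow]; exact inv_anti₀ (by positivity) (by linarith)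
  have ha1 : a ≤ 1 := by nlinarith
  have hb : |bb i * bb j| ≤ 1 := by unfold bb; split_ifs <;> simp
  have e2 : r ^ (-(2 : ℝ)) = w ^ 2 := by rw [hw, ← rp hr0 2]; norm_num
  have e3 : r ^ (-(2 : ℝ) - 1) = w ^ 3 := by rw [hw, ← rp hr0 3]; norm_num
  have e4 : r ^ (-(2 : ℝ) - 2) = w ^ 4 := by rw [hw, ← rp hr0 4]; norm_num
  have a2 : a ^ 2 ≤ w ^ 4 := by
    calc a ^ 2 ≤ (w ^ 2) ^ 2 := by gcongr
      _ = _ := by ring
  have a3 : a ^ 3 ≤ w ^ 6 := by
    calc a ^ 3 ≤ (w ^ 2) ^ 3 := by gcongr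
      _ = _ := by ring
  rw [e2, e3, e4]
  refine ⟨?_, ?_, ?_⟩
  · have : gg x i j - (1 : Matrix (Fin 5) (Fin 5) ℝ) i j = (a * (2 + a)) * (bb i * bb j) := by
      rw [gg_apply, dh, Matrix.one_apply, N0, ← ha]; ring
    rw [this, abs_mul, abs_of_pos (by positivity)]
    calc _ ≤ (w ^ 2 * (2 + 1)) * 1 := by gcongr
      _ ≤ _ := by nlinarith [sq_nonneg w]
  · have : dg x (bv k) (bv i) (bv j) = -(4 * ((1 + a) * a ^ 2)) * x k * (bb i * bb j) := by
      rw [dg, bv_zero, bv_zero, dot_bv, N0, N1, ← ha]; ring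
    rw [jet.ld_entry, this, abs_mul, abs_mul, abs_neg, abs_of_pos (by positivity)]
    calc _ ≤ (4 * ((1 + 1) * w ^ 4)) * r * 1 := by gcongr
      _ = 8 * w ^ 3 * (w * r) := by ring
      _ ≤ _ := by rw [hwr]; nlinarith [pow_pos hw0 3]
  · simp only [jet.ld_entry, dg, bv_zero]
    have h0 := hd_comp x (bv l) (hd_N0 hq)
    have h1 := hd_comp x (bv l) (hd_N1 hq)
    have := ((((h0.const_mul 4).mul h1).mul (hd_a x (bv l) (bv k))).mul_const
      (bb i * bb j)).deriv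
    have e : lineDeriv ℝ (fun y : V 5 => 4 * N0 (y ⬝ᵥ y) * N1 (y ⬝ᵥ y) * y ⬝ᵥ bv k * (bb i * bb j))
        x (bv l) = (8 * (a ^ 3 * (2 + 3 * a)) * x k * x l
          + -(4 * ((1 + a) * a ^ 2)) * bv l k) * (bb i * bb j) := by
      refine this.trans ?_
      simp only [zero_smul, add_zero, Pi.mul_apply, dot_bv, N0, N1, N2, ← ha]; ring
    have hd : |bv l k| ≤ (1 : ℝ) := by
      simp only [bv, Pi.single_apply]; split_ifs <;> simp
    rw [e, abs_mul]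
    calc _ ≤ (|8 * (a ^ 3 * (2 + 3 * a)) * x k * x l| + |-(4 * ((1 + a) * a ^ 2)) * bv l k|) * 1 := by
          gcongr; exact abs_add_le _ _
      _ = (8 * (a ^ 3 * (2 + 3 * a)) * |x k| * |x l| + 4 * ((1 + a) * a ^ 2) * |bv l k|) := by
          rw [mul_one, abs_mul, abs_mul, abs_mul _ (bv l k), abs_neg,
            abs_of_pos (a := 8 * _) (by positivity), abs_of_pos (a := 4 * _) (by positivity)]
      _ ≤ (8 * (w ^ 6 * (2 + 3 * 1)) * r * r + 4 * ((1 + 1) * w ^ 4) * 1) := by gcongr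
      _ = 40 * w ^ 4 * (w * r) ^ 2 + 8 * w ^ 4 := by ring
      _ ≤ _ := by rw [hwr]; nlinarith [pow_pos hw0 4]

lemma hd_dot {n : ℕ} {a b : ℝ → V n} {a' b' : V n} {t : ℝ} (ha : HasDerivAt a a' t)
    (hb : HasDerivAt b b' t) : HasDerivAt (fun s => a s ⬝ᵥ b s) (a' ⬝ᵥ b t + a t ⬝ᵥ b') t := by
  rw [hasDerivAt_pi] at ha hb
  have : HasDerivAt (fun s => ∑ i, a s i * b s i) (∑ i, (a' i * b t i + a t i * b' i)) t :=
    HasDerivAt.fun_sum fun i _ => (ha i).mul (hb i)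
  rw [Finset.sum_add_distrib] at this
  exact this

lemma not_flat (φ : V 5 → V 5) (hφ : ContDiff ℝ 2 φ)
    (h : ∀ x u v, fderiv ℝ φ x u ⬝ᵥ fderiv ℝ φ x v = ip (gg x) u v) : False := by
  have hD : Differentiable ℝ (fderiv ℝ φ) :=
    (hφ.fderiv_right (m := 1) (by norm_num)).differentiable (by norm_num)
  have hs : ∀ x u v, fderiv ℝ (fderiv ℝ φ) x u v = fderiv ℝ (fderiv ℝ φ) x v u := fun x =>
    hφ.contDiffAt.isSymmSndFDerivAt (by simp)
  obtain ⟨D, hDe⟩ : ∃ D, D = fderiv ℝ φ := ⟨_, rfl⟩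
  rw [← hDe] at h hD hs
  have hl : ∀ (x w u : V 5) (t : ℝ),
      HasDerivAt (fun s : ℝ => D (x + s • w) u) (fderiv ℝ D (x + t • w) w u) t := by
    intro x w u t
    have h1 : HasDerivAt (fun s : ℝ => x + s • w) w t := by
      simpa using ((hasDerivAt_id t).smul_const w).const_add x
    have h2 := HasFDerivAt.comp_hasDerivAt (f := fun s : ℝ => x + s • w) t
      (hD (x + t • w)).hasFDerivAt h1
    simpa using h2.clm_apply (hasDerivAt_const t u)
  have hd : ∀ x w u v, fderiv ℝ D x w u ⬝ᵥ D x v + D x u ⬝ᵥ fderiv ℝ D x w v = dg x w u v := by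
    intro x w u v
    have h1 := hd_dot (hl x w u 0) (hl x w v 0)
    simp only [h, zero_smul, add_zero] at h1
    exact h1.unique (jet.hd x w u v)
  have e0 : (bv 1 : V 5) 0 = 0 := by simp [bv]
  have h11 : ∀ x, fderiv ℝ D x (bv 1) (bv 1) = 0 := by
    intro x
    have hinj : Function.Injective ((D x : V 5 →L[ℝ] V 5) : V 5 →ₗ[ℝ] V 5) := by
      rw [injective_iff_map_eq_zero]
      intro v hv
      by_contra hv0
      have h1 := h x v v
      have h2 := (metric.2 x).dotProduct_mulVec_pos hv0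
      rw [show D x v = 0 from hv] at h1
      simp only [star_trivial] at h2
      simp only [ip, zero_dotProduct] at h1
      linarith
    obtain ⟨w, hw⟩ := LinearMap.injective_iff_surjective.1 hinj (fderiv ℝ D x (bv 1) (bv 1))
    have h1 := hd x w (bv 1) (bv 1)
    have h2 := hd x (bv 1) (bv 1) w
    rw [dg, e0] at h1 h2
    rw [hs x (bv 1) w, show D x w = fderiv ℝ D x (bv 1) (bv 1) from hw] at h2
    rw [dotProduct_comm] at h1
    exact dotProduct_self_eq_zero.1 (by linarith)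
  have hinv : ∀ (x : V 5) (t : ℝ), D (x + t • bv 1) (bv 1) = D x (bv 1) := by
    intro x t
    have := is_const_of_deriv_eq_zero (f := fun s : ℝ => D (x + s • bv 1) (bv 1))
      (fun s => (hl x _ _ s).differentiableAt) (fun s => by rw [(hl x _ _ s).deriv, h11]) t 0
    simpa using this
  have hB : ∀ t : ℝ, fderiv ℝ D (0 + t • bv 1) (bv 1) (bv 0) = fderiv ℝ D 0 (bv 0) (bv 1) := by
    intro t
    rw [hs]
    have h1 := hl (0 + t • bv 1) (bv 0) (bv 1) 0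
    have h2 := hl 0 (bv 0) (bv 1) 0
    simp only [zero_smul, add_zero] at h1 h2
    refine h1.unique (h2.congr_of_eventuallyEq (Filter.Eventually.of_forall fun s => ?_))
    simp only
    rw [add_right_comm, hinv]
  obtain ⟨B, hBe⟩ : ∃ B, B = fderiv ℝ D 0 (bv 0) (bv 1) := ⟨_, rfl⟩
  have hA : ∀ t : ℝ, D (t • bv 1) (bv 0) = D 0 (bv 0) + t • B := by
    intro t
    have hh : ∀ s : ℝ, HasDerivAt (fun s : ℝ => D (0 + s • bv 1) (bv 0) - s • B) 0 s := by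
      intro s
      have := (hl 0 (bv 1) (bv 0) s).sub ((hasDerivAt_id s).smul_const B)
      rw [hB, ← hBe, one_smul, sub_self] at this
      exact this
    have := is_const_of_deriv_eq_zero (f := fun s : ℝ => D (0 + s • bv 1) (bv 0) - s • B)
      (fun s => (hh s).differentiableAt) (fun s => (hh s).deriv) t 0
    simp only [zero_add, zero_smul, sub_zero] at this
    rw [← this]; simp
  have h1 := h ((1 : ℝ) • bv 1) (bv 0) (bv 0)
  have h2 := h ((-1 : ℝ) • bv 1) (bv 0) (bv 0)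
  have h3 := h 0 (bv 0) (bv 0)
  rw [hA] at h1 h2
  simp only [add_dotProduct, dotProduct_add, smul_dotProduct, dotProduct_smul, smul_eq_mul] at h1 h2
  simp [ip_gg, N0, bv] at h1 h2 h3
  have := dot_nonneg B
  norm_num at h1 h2 h3
  linarith

theorem main : ∃ (g : Met 5) (τ : ℝ), IsMetric g ∧ Complete g ∧ (5 - 4) / 3 < τ ∧ AF g τ ∧
    (∀ x, L2 g x = 0) ∧ (∀ x, 0 < Scal g x) ∧ HasMass g 0 ∧
    ¬ ∃ φ : V 5 → V 5, ContDiff ℝ 2 φ ∧
      ∀ x u v, fderiv ℝ φ x u ⬝ᵥ fderiv ℝ φ x v = ip (g x) u v := by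
  refine ⟨gg, 2, metric, complete, by norm_num, af, L2_eq, Scal_pos, ?_,
    fun ⟨φ, h1, h2⟩ => not_flat φ h1 h2⟩
  simp only [HasMass, flux_eq, mul_zero]
  exact tendsto_const_nhds

end Pool.Agent.H.MP_f5d73e_gt
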